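import Pool.Agent.E6c.Main

open Pool.Agent.E6b

/-- There are a number field `k`, a finite extension `k' / k` and a nice (smooth, projective,
geometrically integral) surface `X` over `k` whose density degree set over `k` is not contained in
its density degree set over `k'`. -/
theorem Pool.Agent.Results.MP_e6b751_nt.Full.result :
    ∃ (k k' : Type) (_ : Field k) (_ : NumberField k) (_ : Field k') (_ : Algebra k k')
      (_ : FiniteDimensional k k') (X : NiceSurface k), ¬ X.delta k ⊆ X.delta k' :=
  main_thm
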