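import Pool.Agent.E6s.Two
import Pool.Agent.E6s.Hall
import Pool.Agent.E6s.Avg
import Pool.Agent.E6s.Grp
import Pool.Agent.E6s.PtA
import Pool.Agent.E6s.PtB
import Pool.Agent.E6s.Elim
import Pool.Agent.E6s.Nsq
import Pool.Agent.E6s.Grid

set_option autoImplicit false

open Pool.Agent.E6s

/-- Let `L / k` be a finite Galois extension of number fields and `k'` an intermediate field such
that the normal closure of `Gal(L / k')` in `Gal(L / k)` is solvable. Then the density degree set
over `k` of a variety covered by curves of genus at most two is contained in its density degree set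
over `k'`. -/
theorem Pool.Agent.Results.MP_e6b751_nt.Solvable.result (k L : Type) [Field k] [NumberField k]
    [Field L] [Algebra k L] [FiniteDimensional k L] [IsGalois k L] (k' : IntermediateField k L)
    (hs : Group.IsSolvable (Subgroup.normalClosure (k'.fixingSubgroup : Set (L ≃ₐ[k] L))))
    (X : ProjVar k) (hX : X.Covered k') : X.delta k ⊆ X.delta k' := by
  intro d hd
  have : NumberField k' := NumberField.of_module_finite k k'
  obtain ⟨e, he, m, rfl⟩ := divisor X (s_grp (s_solv s_V s_hall s_avg s_rel) s_rel) (K := k')
    k'.fixingSubgroup (fun σ => (IntermediateField.mem_fixingSubgroup_iff _ _).trans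
      ⟨fun h c => h c c.2, fun h c hc => h ⟨c, hc⟩⟩) hs hd
  exact mul_mem_delta X k' s_ptA s_ptB s_elim s_nsq s_grid hX he m
    (Nat.pos_of_mul_pos_left hd.1)
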